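import Mathlib
import Pool.Agent.Lib.UD95.Main3

/-!
# The complexity of a set of polynomial phases (MP_663568_nt)

For `B ⊆ ℝ^t` let `B'` be the closure of `B + ℤ^t`. The average of Q1 for the phases of `B`, with an
arbitrary multiplicative function `a` bounded by one in place of `μ`, is controlled by the
correlations of `a` with the phases of degree at most `σ` in the windows of any fixed length if and
only if the sections of `B'` of dimension greater than `σ` over rational points are null sets. If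
this fails, it fails for the functions `n ^ (i T)`, and there are one completely multiplicative
function of modulus one and `M_j → ∞` such that all its averages of degree at most `σ` vanish along
`M_j` and the average for `B` does not.
-/

set_option autoImplicit false

namespace Pool.Agent.Results.MP_663568_nt.Complexity

/-- The sequences `a` with `|a(n)| ≤ 1` and `a(p k) = a(p) a(k)` for all primes `p` not dividing
`k`. -/
def Mult : Set (ℕ → ℂ) :=
  {a | (∀ n, ‖a n‖ ≤ 1) ∧ ∀ p k : ℕ, p.Prime → ¬ p ∣ k → a (p * k) = a p * a k}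

/-- The completely multiplicative functions with `|a(n)| = 1` for `n ≥ 1`. -/
def CMul : Set (ℕ → ℂ) :=
  {a | a 0 = 0 ∧ (∀ m n : ℕ, a (m * n) = a m * a n) ∧ ∀ n : ℕ, n ≠ 0 → ‖a n‖ = 1}

/-- The functions `n ^ (i T)`, `T` real. -/
def Arch : Set (ℕ → ℂ) :=
  {a | ∃ T : ℝ, ∀ n : ℕ, a n = Complex.exp ((T * Real.log n : ℝ) * Complex.I)}

/-- `α₁ x + α₂ x² + … + α_t x^t`. -/
noncomputable def phase {t : ℕ} (α : Fin t → ℝ) (x : ℝ) : ℝ := ∑ i : Fin t, α i * x ^ (i.val + 1)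

/-- `exp (2 π i x)`. -/
noncomputable def e (x : ℝ) : ℂ := Complex.exp (2 * Real.pi * Complex.I * x)

/-- The logarithmic average over `n ≤ N` of the supremum over `α ∈ B` of
`|∑_{h ≤ H} a(n + h) e(α₁ h + … + α_t h^t)|`. -/
noncomputable def S {t : ℕ} (a : ℕ → ℂ) (B : Set (Fin t → ℝ)) (N H : ℕ) : ℝ :=
  ∑ n ∈ Finset.Icc 1 N, (1 / (n : ℝ)) * ⨆ α : {α : Fin t → ℝ // α ∈ B},
    ‖∑ h ∈ Finset.Icc 1 H, a (n + h) * e (phase (α : Fin t → ℝ) (h : ℝ))‖

/-- The logarithmic average over `n ≤ N` of the sum over the residue classes `b` modulo the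
`q ≤ Q` of the supremum over the real `α₁, …, α_σ` of `|∑ a(n + h) e(α₁ h + … + α_σ h^σ)|`, the sum
over the `h ≤ L` with `n + h ≡ b` modulo `q`. -/
noncomputable def U (σ Q L N : ℕ) (a : ℕ → ℂ) : ℝ :=
  ∑ n ∈ Finset.Icc 1 N, (1 / (n : ℝ)) * ∑ q ∈ Finset.Icc 1 Q, ∑ b ∈ Finset.range q,
    ⨆ α : Fin σ → ℝ, ‖∑ h ∈ Finset.Icc 1 L with (n + h) % q = b,
      a (n + h) * e (phase α (h : ℝ))‖

/-- The averages for `B` are controlled by the phases of degree at most `σ` in the windows of any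
fixed length `L`, uniformly for the functions `a ∈ 𝒞`. -/
def Controlled {t : ℕ} (σ : ℕ) (𝒞 : Set (ℕ → ℂ)) (B : Set (Fin t → ℝ)) : Prop :=
  ∀ ε : ℝ, 0 < ε → ∃ C : ℕ, ∀ L : ℕ, 1 ≤ L → ∃ H₀ : ℕ, ∀ H N : ℕ, H₀ ≤ H → H ^ C ≤ N →
    ∀ a ∈ 𝒞, S a B N H ≤ (ε * Real.log N + C * U σ C L N a / L) * H

/-- The averages of degree at most `σ` of `a` vanish along `M`: for all `Q` and `ε` some `L` has
`U σ Q L (M j) a ≤ ε L log (M j)` for all large `j`. -/
def Vanishing (σ : ℕ) (a : ℕ → ℂ) (M : ℕ → ℕ) : Prop :=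
  ∀ Q : ℕ, ∀ ε : ℝ, 0 < ε → ∃ L : ℕ, 1 ≤ L ∧ ∀ᶠ j in Filter.atTop,
    U σ Q L (M j) a ≤ ε * L * Real.log (M j)

/-- The average for `B` is small along `M`: for every `ε` and all large `H`, `S a B (M j) H` is at
most `ε H log (M j)` for all large `j`. -/
def Small {t : ℕ} (a : ℕ → ℂ) (B : Set (Fin t → ℝ)) (M : ℕ → ℕ) : Prop :=
  ∀ ε : ℝ, 0 < ε → ∃ H₀ : ℕ, ∀ H : ℕ, H₀ ≤ H → ∀ᶠ j in Filter.atTop,
    S a B (M j) H ≤ ε * H * Real.log (M j)

/-- The closure of `B + ℤ^t`. -/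
def Hull {t : ℕ} (B : Set (Fin t → ℝ)) : Set (Fin t → ℝ) :=
  closure {α | ∃ β ∈ B, ∃ z : Fin t → ℤ, ∀ i, α i = β i + (z i : ℝ)}

/-- The section of `B` over the rational numbers `r_{s + 1}, …, r_t`: the set of the `y ∈ ℝ^s` with
`(y₁, …, y_s, r_{s + 1}, …, r_t) ∈ B`. -/
def Sec {t : ℕ} (s : ℕ) (B : Set (Fin t → ℝ)) (r : Fin t → ℚ) : Set (Fin s → ℝ) :=
  {y | (fun i : Fin t => if h : i.val < s then y ⟨i.val, h⟩ else ((r i : ℚ) : ℝ)) ∈ B}

/-- **The complexity of a set of polynomial phases.** -/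
theorem result (t σ : ℕ) (ht : 1 ≤ t) (hσ : σ ≤ t) (B : Set (Fin t → ℝ)) :
    List.TFAE [
      ∀ s : ℕ, σ < s → s ≤ t → ∀ r : Fin t → ℚ, MeasureTheory.volume (Sec s (Hull B) r) = 0,
      Controlled σ Mult B,
      ∀ a ∈ Mult, ∀ M : ℕ → ℕ, Filter.Tendsto M Filter.atTop Filter.atTop →
        Vanishing σ a M → Small a B M,
      ∀ a ∈ CMul, ∀ M : ℕ → ℕ, Filter.Tendsto M Filter.atTop Filter.atTop →
        Vanishing σ a M → Small a B M,
      Controlled σ Arch B] :=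
  Pool.Agent.UD.fin3 Pool.Agent.UD.pos2 Pool.Agent.UD.neg2 Pool.Agent.UD.glue3 ht hσ B

end Pool.Agent.Results.MP_663568_nt.Complexity
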