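import Mathlib
import Pool.Agent.Lib.HB.Final

/-!
# Q1 for the Heisenberg group and bounded nilrotations (MP_663568_nt)

`Heis` is the Heisenberg group `ℝ³`, `(x, y, z) (x', y', z') = (x + x', y + y', z + z' + x y')`, and
`Gam = ℤ³`. The `g` of Q1 run through the elements over a bounded set `E ⊆ ℝ²` (`(g.x, g.y) ∈ E`,
central part arbitrary), the functions `f` have mean zero on the fibres of `G ⧸ Γ → ℝ² ⧸ ℤ²`. Let
`E'` be the closure of `E`. The estimate of Q1 holds for `E` if and only if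
* `E'` meets no line through `0` and a rational point `≠ 0`, or the estimate of Q1 holds for all
  linear phases, and
* `E'` meets every other line through two rational points in a null set, or quadratic phases with
  top coefficient outside of the major arcs are uniformly small.
-/

set_option autoImplicit false

namespace Pool.Agent.Results.MP_663568_nt.Heisenberg

open Pool.Agent.HB

/-- `S N H = o(H log N)` as `H → ∞`, uniformly in `N ≥ H`. -/
def Small (S : ℕ → ℕ → ℝ) : Prop :=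
  ∀ ε : ℝ, 0 < ε → ∃ H₀ : ℕ, ∀ H N : ℕ, H₀ ≤ H → H ≤ N → S N H ≤ ε * H * Real.log N

/-- The average of Q1 for `f`, the base point `x₀` and the `g` over `E`. -/
noncomputable def Avg (f : Heis ⧸ Gam → ℂ) (x₀ : Heis) (E : Set (ℝ × ℝ)) (N H : ℕ) : ℝ :=
  ∑ n ∈ Finset.Icc 1 N, (1 / (n : ℝ)) * ⨆ g : {g : Heis // (g.x, g.y) ∈ E},
    ‖∑ h ∈ Finset.Icc 1 H, f (QuotientGroup.mk ((g : Heis) ^ (h + n) * x₀)) *
      ((ArithmeticFunction.moebius (n + h) : ℤ) : ℂ)‖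

/-- The same with the supremum over all base points, too (`g ^ n x₀` is replaced by `x`). -/
noncomputable def AvgX (f : Heis ⧸ Gam → ℂ) (E : Set (ℝ × ℝ)) (N H : ℕ) : ℝ :=
  ∑ n ∈ Finset.Icc 1 N, (1 / (n : ℝ)) * ⨆ v : {v : Heis × Heis // (v.1.x, v.1.y) ∈ E},
    ‖∑ h ∈ Finset.Icc 1 H, ((ArithmeticFunction.moebius (n + h) : ℤ) : ℂ) *
      f (QuotientGroup.mk (v.1.1 ^ h * v.1.2))‖

/-- `f` has mean zero on the fibres `x Z(G) Γ` of `G ⧸ Γ → ℝ² ⧸ ℤ²`. -/
def ZeroMean (f : Heis ⧸ Gam → ℂ) : Prop :=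
  ∀ x : Heis, ∫ t in (0 : ℝ)..1, f (QuotientGroup.mk (x * ⟨0, 0, t⟩)) = 0

/-- The average for the phases `e(a h² + β h)`, `a ∈ A`, `β` real. -/
noncomputable def Quad (A : Set ℝ) (N H : ℕ) : ℝ :=
  ∑ n ∈ Finset.Icc 1 N, (1 / (n : ℝ)) * ⨆ v : {v : ℝ × ℝ // v.1 ∈ A},
    ‖∑ h ∈ Finset.Icc 1 H, ((ArithmeticFunction.moebius (n + h) : ℤ) : ℂ) *
      Complex.exp (2 * Real.pi * Complex.I *
        ((v.1.1 * (h : ℝ) ^ 2 + v.1.2 * (h : ℝ) : ℝ) : ℂ))‖

/-- The estimate for all linear phases. -/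
def Lin : Prop := Small (Quad {0})

/-- The estimate for the quadratic phases with top coefficient outside of the major arcs. -/
def Minor : Prop := ∀ ε : ℝ, 0 < ε → ∃ Q : ℕ, ∀ δ : ℝ, 0 < δ → ∃ H₀ : ℕ, ∀ H N : ℕ,
  H₀ ≤ H → H ≤ N →
  Quad {x | ∀ q : ℕ, 1 ≤ q → q ≤ Q → ∀ b : ℤ, δ ≤ |(q : ℝ) * x - b|} N H ≤
    ε * H * Real.log N

/-- `E` meets no line through `0` and a rational point `≠ 0`. -/
def MissesLines (E : Set (ℝ × ℝ)) : Prop :=
  ∀ a b : ℚ, (a ≠ 0 ∨ b ≠ 0) → ∀ t : ℝ, (t * (a : ℝ), t * (b : ℝ)) ∉ E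

/-- `E` meets the rational lines which do not contain `0` in null sets. -/
def NullOnLines (E : Set (ℝ × ℝ)) : Prop :=
  ∀ p q a b : ℚ, p * b - q * a ≠ 0 →
    MeasureTheory.volume {t : ℝ | ((p : ℝ) + t * (a : ℝ), (q : ℝ) + t * (b : ℝ)) ∈ E} = 0

/-- **Q1 for the Heisenberg group and bounded nilrotations.** -/
theorem result (E : Set (ℝ × ℝ)) (hE : Bornology.IsBounded E) : List.TFAE [
      ∀ f : Heis ⧸ Gam → ℂ, Continuous f → ZeroMean f → ∀ x₀ : Heis, Small (Avg f x₀ E),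
      ∀ f : Heis ⧸ Gam → ℂ, Continuous f → ZeroMean f → Small (AvgX f E),
      (MissesLines (closure E) ∨ Lin) ∧ (NullOnLines (closure E) ∨ Minor)] :=
  Pool.Agent.HB.main hE

end Pool.Agent.Results.MP_663568_nt.Heisenberg
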