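import Mathlib
import Pool.Agent.Lib.MP_663568_q.R09

/-!
# Major arcs which shrink with `H`: Q1 of MP_663568_nt, uniformly in `g`, with twists

`G` is a nilpotent topological group with lower central series `G = G_1, G_2, …` and a subgroup
`Γ`, such that every `G_j` has coordinates (structure `Coord`; by Malcev all `G`, `Γ` of Q1 are of
this form), `f` is a continuous function on `G ⧸ Γ` which is orthogonal to all continuous functions
which are invariant under `G_(s+1)`, `s ≥ 1` (for `s = 1`: to all functions on `G ⧸ [G, G] Γ`).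
`K`, `Λ` is another pair of the same kind, of step at most `s`, and `ψ` is any continuous function
on `K ⧸ Λ`.  The estimate of Q1 holds for the sequences `f (g ^ n x) ψ (k ^ n y) e(Q n)`, for any
bounded multiplicative function `a` in place of `μ`, with the supremum over all `x ∈ G`, ALL
`k, y ∈ K`, all real polynomials `Q` of degree at most `s` and all `g ∈ G` outside the major arcs:
the image `u` of `g` in `G ⧸ [G, G] = ℝ ^ m` has size at most `R`, is at distance at least `d` from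
the solutions of `k ⬝ u ∈ ℤ`, `0 < |k| ≤ C`, and `δ` from those with `|k| ≤ C (R / d) ^ C`.  Here
`C` only depends on `G`, `Γ`, `f`, `K`, `Λ`, `ψ`, `ε`; `R`, `1 / d`, `1 / δ` may be powers of `H`.
-/

set_option autoImplicit false
open Finset

namespace Pool.Agent.Results.MP_663568_nt.MajorArcs

open Pool.Agent.Lib.MP_663568_nt Pool.Agent.Lib.MP_663568_nt.Katai
  Pool.Agent.Lib.MP_663568_nt.Tw Pool.Agent.Lib.MP_663568_nt.Fib Pool.Agent.Lib.MP_663568_nt.T3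
  Pool.Agent.Lib.MP_663568_nt.E

/-- `G` is nilpotent of step at most `t`, and every term `G_(s+1)` (in Lean
`(⊤ : Subgroup G).lowerCentralSeries s`) of the lower central series has coordinates: `π s` is a
continuous homomorphism from it to `ℝ ^ (d s)` with kernel the next term, integral on `Γ`, and the
`e s j` are one-parameter subgroups of it with `e s j 1 ∈ Γ` which `π s` maps to the coordinate
axes. -/
structure Coord (G : Type) [Group G] [TopologicalSpace G] (Γ : Subgroup G) (t : ℕ) where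
  d : ℕ → ℕ
  π : (s : ℕ) → G → Fin (d s) → ℝ
  e : (s : ℕ) → Fin (d s) → ℝ → G
  nil : (⊤ : Subgroup G).lowerCentralSeries t = ⊥
  π_mul : ∀ s, ∀ x ∈ (⊤ : Subgroup G).lowerCentralSeries s,
    ∀ y ∈ (⊤ : Subgroup G).lowerCentralSeries s, π s (x * y) = π s x + π s y
  π_cont : ∀ s, ContinuousOn (π s) ((⊤ : Subgroup G).lowerCentralSeries s)
  π_int : ∀ s, ∀ γ ∈ Γ, γ ∈ (⊤ : Subgroup G).lowerCentralSeries s → ∀ j, ∃ z : ℤ, π s γ j = z
  π_ker : ∀ s, ∀ x ∈ (⊤ : Subgroup G).lowerCentralSeries s,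
    π s x = 0 ↔ x ∈ (⊤ : Subgroup G).lowerCentralSeries (s + 1)
  e_cont : ∀ s j, Continuous (e s j)
  e_add : ∀ s j a b, e s j (a + b) = e s j a * e s j b
  e_one : ∀ s j, e s j 1 ∈ Γ
  e_mem : ∀ s j r, e s j r ∈ (⊤ : Subgroup G).lowerCentralSeries s
  e_π : ∀ s j r, π s (e s j r) = Pi.single j r

/-- `|k ⬝ u - z| ≥ δ` for all integers `z` and all integer vectors `k` with `0 < |k| ≤ h` -/
def Far {m : ℕ} (h δ : ℝ) (u : Fin m → ℝ) : Prop :=
  ∀ k : Fin m → ℤ, k ≠ 0 → (∀ j, |(k j : ℝ)| ≤ h) → ∀ z : ℤ, δ ≤ |∑ j, (k j : ℝ) * u j - z|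

/-- `g` is outside the major arcs: its image in `G ⧸ [G, G] = ℝ ^ m` has size at most `R`, is
`d`-far from the relations of height `C` and `δ`-far from those of height `C (R / d) ^ C`. -/
def NotMajor {G : Type} [Group G] [TopologicalSpace G] {Γ : Subgroup G} {t : ℕ}
    (D : Coord G Γ t) (C : ℕ) (R d δ : ℝ) (g : G) : Prop :=
  (∀ j, |D.π 0 g j| ≤ R) ∧ Far (C : ℝ) d (D.π 0 g) ∧ Far (C * (R / d) ^ C) δ (D.π 0 g)

theorem result (G K : Type) [Group G] [TopologicalSpace G] [IsTopologicalGroup G]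
    [Group K] [TopologicalSpace K] [IsTopologicalGroup K] (Γ : Subgroup G) (Λ : Subgroup K)
    (t s : ℕ) (hs : 1 ≤ s) (DG : Coord G Γ t) (DK : Coord K Λ s)
    [MeasurableSpace (G ⧸ Γ)] [BorelSpace (G ⧸ Γ)] (m : MeasureTheory.Measure (G ⧸ Γ))
    [MeasureTheory.IsProbabilityMeasure m] (hm : ∀ g : G, m.map (fun x => g • x) = m)
    (f : G ⧸ Γ → ℂ) (hf : Continuous f)
    (hf0 : ∀ φ : G ⧸ Γ → ℂ, Continuous φ →
      (∀ z ∈ (⊤ : Subgroup G).lowerCentralSeries s, ∀ x : G ⧸ Γ, φ (z • x) = φ x) →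
      ∫ x, f x * (starRingEnd ℂ) (φ x) ∂m = 0)
    (ψ : K ⧸ Λ → ℂ) (hψ : Continuous ψ) (ε : ℝ) (hε : 0 < ε) :
    ∃ C : ℕ, 1 ≤ C ∧ ∀ a : ℕ → ℂ, (∀ n, ‖a n‖ ≤ 1) →
      (∀ p : ℕ, p.Prime → ∀ k, ¬ p ∣ k → a (p * k) = a p * a k) →
      ∀ R d δ : ℝ, 1 ≤ R → 0 < δ → δ ≤ d → d ≤ 1 →
      ∀ H N : ℕ, C * (R / δ) ^ C ≤ H → H ≤ N →
      (∑ n ∈ Finset.Icc 1 N, (1 / (n : ℝ)) *
        ⨆ v : ({g : G // NotMajor DG C R d δ g} × G) × (K × K) ×
            {Q : Polynomial ℝ // Q.natDegree ≤ s},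
          ‖∑ h ∈ Finset.Icc 1 H, f (QuotientGroup.mk ((v.1.1 : G) ^ (h + n) * v.1.2)) *
              ψ (QuotientGroup.mk (v.2.1.1 ^ (h + n) * v.2.1.2)) *
              Complex.exp (2 * Real.pi * Complex.I *
                ((v.2.2.1.eval ((h + n : ℕ) : ℝ) : ℝ) : ℂ)) * a (n + h)‖)
      ≤ ε * (H : ℝ) * Real.log (N : ℝ) := by
  classical
  have hN := Q.nsRaw Γ t DG.nil DG.d DG.π DG.e DG.π_mul DG.π_cont DG.π_int DG.π_ker DG.e_cont
    DG.e_add DG.e_one DG.e_mem DG.e_π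
  have hN' := Q.nsRaw Λ s DK.nil DK.d DK.π DK.e DK.π_mul DK.π_cont DK.π_int DK.π_ker DK.e_cont
    DK.e_add DK.e_one DK.e_mem DK.e_π
  have hψr : Reg Λ (fun y : K => ψ (y : K ⧸ Λ)) :=
    ⟨hψ.comp QuotientGroup.continuous_mk, fun x γ hγ => by
      simp only
      rw [QuotientGroup.mk_mul_of_mem x hγ]⟩
  have hfr : Reg Γ (fun x : G => f (x : G ⧸ Γ)) :=
    ⟨hf.comp QuotientGroup.continuous_mk, fun x γ hγ => by
      simp only
      rw [QuotientGroup.mk_mul_of_mem x hγ]⟩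
  have hK : lcs K (s + 1) = ⊥ := DK.nil
  obtain ⟨B, _, hB⟩ := reg_bdd (coc_prime hN) hfr
  obtain ⟨C, hC, hmain⟩ := Q.mean_nilR hN t DG.nil m hm s hs f hf hf0 hN'
    (fun y : K => ψ (y : K ⧸ Λ)) hψr (by
      rw [hK]
      intro z hz x
      rw [Subgroup.mem_bot.mp hz, one_mul]) ε hε
  refine ⟨C, hC, fun a ha hmul R d δ hR hδ hδd hd1 H N hH hHN => ?_⟩
  refine le_trans (sum_le_sum fun n _ => ?_)
    (hmain C le_rfl a ha hmul R d δ hR hδ hδd hd1 H N hH hHN)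
  refine mul_le_mul_of_nonneg_left ?_ (by positivity)
  refine Real.iSup_le ?_ (GG_nonneg _ _ _ _)
  rintro ⟨⟨⟨g, hg1, hg2, hg3⟩, x⟩, ⟨k, y⟩, ⟨q, hq⟩⟩
  have hG : Q.GoodEl (DG.π 0) C R d δ g :=
    ⟨hg1, fun k hk hkh => hg2 k hk hkh _, fun k hk hkh => hg3 k hk hkh _⟩
  have h3 := Q.le_GGR (p := DG.π 0) (C := C) (R := R) (d := d) (δ := δ)
    (T := Q.NilR s (fun y : K => ψ (y : K ⧸ Λ))) (F := fun x : G => f (x : G ⧸ Γ)) ⟨B, hB⟩
    (Q.nilR_bdd (coc_prime hN') s _ hψr) ha H n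
    ⟨⟨g, hG⟩, x, ⟨fun l => ψ ((k ^ l * y : K) : K ⧸ Λ) * ee (q.eval (l : ℝ)),
      k, y, fun l => q.eval (l : ℝ), PP.eval q s hq, rfl⟩⟩
  refine le_trans (le_of_eq ?_) h3
  congr 1
  refine sum_congr rfl fun h _ => ?_
  simp only [Q.famR]
  rw [add_comm h n, mul_assoc (f _) (ψ _)]
  congr 3

end Pool.Agent.Results.MP_663568_nt.MajorArcs
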