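import Mathlib
import Pool.Agent.Lib.LS.Fin

/-!
# The short interval estimate of Q1 for a class of dynamical systems (MP_663568_nt)

The estimate of Q1 with the nilrotations replaced by a topological system `(X, T)` and a continuous
function `f` which, for every invariant measure, is approximated in mean by sums of functions whose
values along almost every orbit are multiples of sequences `F(g^h x Γ) e(α₁ h + … + α_t h^t)`, `g`
and `x` arbitrary, `α` in a closed set with null sections over the rational points.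
-/

set_option autoImplicit false

namespace Pool.Agent.Results.MP_663568_nt.ShortIntervalSystems

/-- `W` is the set of all the sequences `F(g^h x Γ) e(α₁ h + … + α_t h^t)`, `g, x ∈ G`, `α ∈ B`, for
some subgroup `Γ` of a nilpotent topological group `G` of step at most `k < t`, continuous `F` on
`G / Γ`, `|F| ≤ 1`, and a closed `ℝ^k × ℤ^(t - k)`-invariant set `B ⊆ ℝ^t` all of whose sections
over the rational points are null sets. -/
def Phases (W : Set (ℕ → ℂ)) : Prop :=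
  ∃ (G : Type) (_ : Group G) (_ : TopologicalSpace G) (_ : IsTopologicalGroup G) (k t : ℕ)
    (A : ℕ → Subgroup G) (Γ : Subgroup G) (F : G ⧸ Γ → ℂ) (B : Set (Fin t → ℝ)),
    k < t ∧ Antitone A ∧ (∀ i j, ⁅A i, A j⁆ ≤ A (i + j)) ∧ A 1 = ⊤ ∧ A (k + 1) = ⊥ ∧
    IsClosed (Γ : Set G) ∧
    (∀ i, ∃ C : Set G, IsCompact C ∧ (∀ c ∈ C, c ∈ A i) ∧
      ∀ x ∈ A i, ∃ c ∈ C, ∃ γ ∈ Γ, x = c * γ) ∧
    Continuous F ∧ (∀ y, ‖F y‖ ≤ 1) ∧ IsClosed B ∧
    (∀ α ∈ B, ∀ β : Fin t → ℝ,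
      (∀ i : Fin t, k ≤ i.val → ∃ z : ℤ, β i = α i + (z : ℝ)) → β ∈ B) ∧
    (∀ s : ℕ, 1 ≤ s → s ≤ t → ∀ r : Fin t → ℚ, MeasureTheory.volume {y : Fin s → ℝ |
      (fun i : Fin t => if h : i.val < s then y ⟨i.val, h⟩ else ((r i : ℚ) : ℝ)) ∈ B} = 0) ∧
    W = {w : ℕ → ℂ | ∃ g x : G, ∃ α ∈ B, ∀ h : ℕ, w h = F (QuotientGroup.mk (g ^ h * x)) *
      Complex.exp (2 * Real.pi * Complex.I *
        ((∑ i : Fin t, α i * (h : ℝ) ^ (i.val + 1) : ℝ) : ℂ))}

/-- There are finitely many bounded measurable functions `φ j` with `∫ |f - ∑ φ j| dν ≤ ε`, such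
that for `ν`-almost every `z` the sequence `φ j (T^h z)` is a multiple of a sequence of a set
`W j` with `Phases (W j)`. -/
def Approx {X : Type} [MeasurableSpace X] (T : X → X) (f : X → ℂ)
    (ν : MeasureTheory.Measure X) (ε : ℝ) : Prop :=
  ∃ (J : ℕ) (M : ℝ) (W : Fin J → Set (ℕ → ℂ)) (φ : Fin J → X → ℂ), 0 ≤ M ∧ (∀ j, Phases (W j)) ∧
    (∀ j, Measurable (φ j)) ∧ (∀ j z, ‖φ j z‖ ≤ M) ∧
    (∀ j, ∀ᵐ z ∂ν, ∃ w ∈ W j, ∃ c : ℂ, ‖c‖ ≤ M ∧ ∀ h : ℕ, φ j (T^[h] z) = c * w h) ∧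
    ∫ z, ‖f z - ∑ j, φ j z‖ ∂ν ≤ ε

/-- **The short interval estimate and the logarithmic Möbius disjointness.** -/
theorem result {X : Type} [MetricSpace X] [CompactSpace X] [MeasurableSpace X] [BorelSpace X]
    (T : X → X) (hT : Continuous T) (f : X → ℂ) (hf : Continuous f)
    (happ : ∀ ν : MeasureTheory.Measure X, MeasureTheory.IsProbabilityMeasure ν →
      MeasureTheory.MeasurePreserving T ν ν → ∀ ε : ℝ, 0 < ε → Approx T f ν ε) :
    (∀ ε : ℝ, 0 < ε → ∃ C H₀ : ℕ, ∀ H N : ℕ, H₀ ≤ H → H ^ C ≤ N →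
      ∑ n ∈ Finset.Icc 1 N, (1 / (n : ℝ)) * ⨆ z : X,
        ‖∑ h ∈ Finset.Icc 1 H, ((ArithmeticFunction.moebius (n + h) : ℤ) : ℂ) * f (T^[h] z)‖ ≤
          ε * H * Real.log N) ∧
    ∀ x : X, Filter.Tendsto (fun N : ℕ => (1 / (Real.log N : ℂ)) * ∑ n ∈ Finset.Icc 1 N,
      (1 / (n : ℂ)) * (((ArithmeticFunction.moebius n : ℤ) : ℂ) * f (T^[n] x)))
      Filter.atTop (nhds 0) := by
  have happ' : ∀ ν : MeasureTheory.Measure X, MeasureTheory.IsProbabilityMeasure ν →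
      MeasureTheory.MeasurePreserving T ν ν → ∀ ε : ℝ, 0 < ε → Pool.Agent.LS.Appr T f ν ε := by
    intro ν hν hνT ε hε
    obtain ⟨J, M, W, φ, hM, hW, hφ, hb, hae, hint⟩ := happ ν hν hνT ε hε
    refine ⟨J, M, W, φ, hM, fun j => ?_, hφ, hb, hae, hint⟩
    obtain ⟨G, i1, i2, i3, k, t, A, Γ, F, B, hkt, hanti, hcomm, hA1, hAk, hΓ, hcpt, hF, hF1, hB,
      hinv, hnull, hWj⟩ := hW j
    rw [hWj]
    exact Pool.Agent.LS.LU_WN k t hkt A hanti hcomm hA1 hAk Γ hΓ hcpt F hF hF1 B hB hinv hnull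
  exact ⟨fun ε hε => Pool.Agent.LS.R4 T hT f hf happ' ε hε,
    fun x => Pool.Agent.LS.pointwise T hT f hf happ' x⟩

end Pool.Agent.Results.MP_663568_nt.ShortIntervalSystems
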