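import Mathlib
import Pool.Agent.Lib.NG.All

/-!
# Q1 for all nilmanifolds along slowly varying families (MP_663568_nt)

`G` is a closed group of upper unitriangular real matrices in which every element lies on a one
parameter subgroup, `Γ` a cocompact subgroup of integral matrices, `f` a continuous function on
`G ⧸ Γ`.  The Möbius function in the short intervals `(n, n + H]` is compared with the orbits
`k ↦ g_n(k) Γ`, `g_n : ℤ → G` a map whose matrix entries are polynomials of degree at most `D`; for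
`g_n(k) = g ^ k x₀` this is the average of Q1.  In addition the orbit is multiplied by `Z(P(h))`,
`k = n + h`, `Z` a continuous homomorphism from `ℝ ^ r` to the centre of `G` which maps `ℤ ^ r`
to `Γ`, with the supremum over all real polynomial maps `P` of degree at most `t` whose linear
coefficient is `q_n'(n)`.  The average is small when `(g_n, q_n)` is of bounded variation: at most
`H ^ A` in each dyadic block.
-/

set_option autoImplicit false

namespace Pool.Agent.Results.MP_663568_nt.SlowNilsequences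

/-- `G` is a closed group of upper unitriangular real matrices and each element of `G` lies on a
one parameter subgroup of `G`. -/
structure Unip {m : ℕ} (G : Subgroup (Matrix.GeneralLinearGroup (Fin m) ℝ)) : Prop where
  upper : ∀ g ∈ G, ∀ i j : Fin m, j ≤ i →
    (g : Matrix (Fin m) (Fin m) ℝ) i j = if i = j then 1 else 0
  closed : IsClosed (G : Set (Matrix.GeneralLinearGroup (Fin m) ℝ))
  line : ∀ g ∈ G, ∃ φ : ℝ → Matrix.GeneralLinearGroup (Fin m) ℝ, Continuous φ ∧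
    (∀ s t, φ (s + t) = φ s * φ t) ∧ φ 1 = g ∧ ∀ t, φ t ∈ G

section

variable {m : ℕ} {G : Subgroup (Matrix.GeneralLinearGroup (Fin m) ℝ)}

/-- The entries of `g k` are real polynomials in `k` of degree at most `D`. -/
def Poly (D : ℕ) (g : ℤ → G) : Prop := ∀ i j : Fin m, ∃ p : Polynomial ℝ, p.natDegree ≤ D ∧
  ∀ k : ℤ, ((g k : Matrix.GeneralLinearGroup (Fin m) ℝ) : Matrix (Fin m) (Fin m) ℝ) i j =
    p.eval (k : ℝ)

/-- The maximum over `0 ≤ k ≤ 4 n` of the sum of the absolute values of the entries of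
`g' k (g k)⁻¹ - 1` and of the `q'_c'(k) - q_c'(k)`. -/
noncomputable def vr {r : ℕ} (n : ℕ) (g g' : ℤ → G) (q q' : Fin r → Polynomial ℝ) : ℝ :=
  ⨆ k : Fin (4 * n + 1), (∑ i, ∑ j,
    |((g' (k : ℕ) * (g (k : ℕ))⁻¹ : Matrix.GeneralLinearGroup (Fin m) ℝ) :
      Matrix (Fin m) (Fin m) ℝ) i j - (1 : Matrix (Fin m) (Fin m) ℝ) i j| +
    ∑ c, |(q' c).derivative.eval ((k : ℕ) : ℝ) - (q c).derivative.eval ((k : ℕ) : ℝ)|)

/-- `Z` is a continuous homomorphism from `ℝ ^ r` to the centre of `G`, `Z (ℤ ^ r) ⊆ Γ`. -/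
structure Central {r : ℕ} (Γ : Subgroup G) (Z : (Fin r → ℝ) → G) : Prop where
  cont : Continuous Z
  add : ∀ s s', Z (s + s') = Z s * Z s'
  cen : ∀ s g, Z s * g = g * Z s
  int : ∀ k : Fin r → ℤ, Z (fun c => (k c : ℝ)) ∈ Γ

/-- The supremum over the `r`-tuples `P` of real polynomials of degree at most `t` with
`P'(0) = q'(n)` of `|∑_{h ≤ H} f(g(n + h) Z(P(h)) Γ) μ(n + h)|`. -/
noncomputable def Sup {Γ : Subgroup G} (f : G ⧸ Γ → ℂ) {r : ℕ} (Z : (Fin r → ℝ) → G) (t : ℕ)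
    (g : ℤ → G) (q : Fin r → Polynomial ℝ) (H n : ℕ) : ℝ :=
  ⨆ P : {P : Fin r → Polynomial ℝ // ∀ c, (P c).natDegree ≤ t ∧
      (P c).coeff 1 = (q c).derivative.eval (n : ℝ)},
    ‖∑ h ∈ Finset.Icc 1 H, f (QuotientGroup.mk (g (n + h) * Z fun c => (P.1 c).eval (h : ℝ))) *
      ((ArithmeticFunction.moebius (n + h) : ℤ) : ℂ)‖

end

/-- **Möbius in short intervals is orthogonal to slowly varying nilsequences.** -/
theorem result {m : ℕ} {G : Subgroup (Matrix.GeneralLinearGroup (Fin m) ℝ)} (hG : Unip G)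
    {Γ : Subgroup G}
    (hΓ : ∀ γ ∈ Γ, ∀ i j, ∃ k : ℤ, ((γ : Matrix.GeneralLinearGroup (Fin m) ℝ) :
      Matrix (Fin m) (Fin m) ℝ) i j = k) [CompactSpace (G ⧸ Γ)] {r : ℕ} {Z : (Fin r → ℝ) → G}
    (hZ : Central Γ Z) (f : G ⧸ Γ → ℂ) (hf : Continuous f) (D t : ℕ) (ht : 1 ≤ t) (A ε : ℝ)
    (hε : 0 < ε) :
    ∃ (B : ℝ) (H₀ : ℕ), ∀ H : ℕ, H₀ ≤ H → ∀ x y : ℝ, (H : ℝ) ^ B ≤ x → x * H ≤ y →
    ∀ (g : ℕ → ℤ → G) (q : ℕ → Fin r → Polynomial ℝ), (∀ n, Poly D (g n)) →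
    (∀ n c, (q n c).natDegree ≤ D) →
    (∀ j : ℕ, ∑ n ∈ Finset.Ico (2 ^ j) (2 ^ (j + 1)),
      min 1 (vr n (g n) (g (n + 1)) (q n) (q (n + 1))) ≤ (H : ℝ) ^ A) →
    ∑ n ∈ Finset.Ioc ⌊x⌋₊ ⌊y⌋₊, (1 / (n : ℝ)) * Sup f Z t (g n) (q n) H n ≤
      ε * H * Real.log (y / x) :=
  Pool.Agent.NG.final Pool.Agent.NG.nvz_all ⟨hG.upper, hG.closed, hG.line⟩ hΓ ⟨hZ.cont, hZ.add, hZ.cen, hZ.int⟩ f
    hf D t ht A ε hε

end Pool.Agent.Results.MP_663568_nt.SlowNilsequences
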