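import Mathlib
import Pool.Agent.Lib.SV.TF
import Pool.Agent.Lib.VQ.WSAv

/-!
# The supremum over time-dependent sets of frequencies of the whole circle (MP_663568_nt)

The average of Q1 for `G = ℝ`, `Γ = ℤ`, `f(x) = e(x)`, `x₀ = 0`, with the supremum at time `n` over
`g` in a set `B n` of real numbers, and its analogue for the polynomial phases with linear
coefficient in `B n`.
-/

set_option autoImplicit false

namespace Pool.Agent.Results.MP_663568_nt.TimeFrequency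

/-- The logarithmic average over `n ≤ N` of the supremum over `y ∈ B n` of
`|∑_{h ≤ H} e((h + n) y) μ(n + h)|`. -/
noncomputable def Avg (B : ℕ → Set ℝ) (N H : ℕ) : ℝ :=
  ∑ n ∈ Finset.Icc 1 N, (1 / (n : ℝ)) * ⨆ y : {y : ℝ // y ∈ B n},
    ‖∑ h ∈ Finset.Icc 1 H,
      Complex.exp (2 * Real.pi * Complex.I * (((h + n : ℕ) : ℝ) * (y : ℝ) : ℝ)) *
        ((ArithmeticFunction.moebius (n + h) : ℤ) : ℂ)‖

/-- The logarithmic average over `n ≤ N` of the supremum over the real polynomials `P` of degree at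
most `t` with linear coefficient in `B n` of `|∑_{h ≤ H} e(P(h)) μ(n + h)|`. -/
noncomputable def PAvg (t : ℕ) (B : ℕ → Set ℝ) (N H : ℕ) : ℝ :=
  ∑ n ∈ Finset.Icc 1 N, (1 / (n : ℝ)) *
    ⨆ P : {P : Polynomial ℝ // P.natDegree ≤ t ∧ P.coeff 1 ∈ B n},
      ‖∑ h ∈ Finset.Icc 1 H,
        Complex.exp (2 * Real.pi * Complex.I * (((P : Polynomial ℝ).eval (h : ℝ) : ℝ) : ℂ)) *
          ((ArithmeticFunction.moebius (n + h) : ℤ) : ℂ)‖

/-- `B (n + 1) ≠ B n` for at most `K` of the `n` of each block `[2 ^ j, 2 ^ (j + 1))`. -/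
def Slow (B : ℕ → Set ℝ) (K : ℝ) : Prop :=
  ∀ j : ℕ, (({n : ℕ | 2 ^ j ≤ n ∧ n < 2 ^ (j + 1) ∧ B (n + 1) ≠ B n}.ncard : ℕ) : ℝ) ≤ K

/-- The union of `A` and `-A`. -/
def Sym (A : Set ℝ) : Set ℝ := {y | y ∈ A ∨ -y ∈ A}

/-- The measure of the set of points of `[0, 1]` at distance at most `1 / R` from `A` modulo `1`. -/
noncomputable def outer (A : Set ℝ) (R : ℝ) : ℝ :=
  (MeasureTheory.volume {x : ℝ | x ∈ Set.Icc 0 1 ∧ ∃ y ∈ A, ∃ b : ℤ, |y - x - b| ≤ 1 / R}).toReal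

/-- The logarithmic average of `outer (Sym (B n)) R`. -/
noncomputable def dens (B : ℕ → Set ℝ) (N : ℕ) (R : ℝ) : ℝ :=
  (∑ n ∈ Finset.Icc 1 N, (1 / (n : ℝ)) * outer (Sym (B n)) R) / Real.log N

/-- The measure of the set of points of `[0, 1]` whose closed `1 / R`-neighbourhood is contained in
`A` modulo `1`. -/
noncomputable def inner (A : Set ℝ) (R : ℝ) : ℝ :=
  (MeasureTheory.volume {x : ℝ | x ∈ Set.Icc 0 1 ∧ ∀ z : ℝ, |z - x| ≤ 1 / R →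
    ∃ b : ℤ, z + b ∈ A}).toReal

/-- **Upper and lower bound for the supremum over time-dependent sets of frequencies by the measure
of the sets; polynomial phases with linear coefficient in time-dependent sets.** -/
theorem result (A ε : ℝ) (hε : 0 < ε) :
    (∀ R : ℝ, 1 ≤ R → ∃ H₀ : ℕ, ∀ H N : ℕ, H₀ ≤ H → H ≤ N →
      (∀ B : ℕ → Set ℝ, Slow B ((H : ℝ) ^ A) →
        Avg B N H ≤ (√(3 * dens B N R) / Real.pi + ε) * H * Real.log N) ∧
      ∃ L : ℕ, (H : ℝ) ^ (1 - ε) ≤ L ∧ L ≤ H ∧ ∀ B : ℕ → Set ℝ, Slow B ((H : ℝ) ^ A) →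
        ∀ w : ℝ, (∀ n, w ≤ inner (Sym (B n)) R) →
        w * Avg (fun _ => Set.univ) N H / H - ε * Real.log N ≤ Avg B N L / L) ∧
    ∀ t : ℕ, 1 ≤ t → ∀ ω : ℝ → ℝ, Filter.Tendsto ω Filter.atTop (nhds 0) →
      ∃ (C : ℝ) (H₀ : ℕ), ∀ H N : ℕ, H₀ ≤ H → (H : ℝ) ^ C ≤ N →
        ∀ B : ℕ → Set ℝ, Slow B ((H : ℝ) ^ A) → (∀ R : ℝ, 1 ≤ R → dens B N R ≤ ω R) →
        PAvg t B N H ≤ ε * H * Real.log N :=
  ⟨fun R hR => by
    obtain ⟨H₀, h⟩ := Pool.Agent.SV.TFasm.tf A ε R hε hR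
    exact ⟨H₀, fun H N hH hN => ⟨(h H N hH hN).1, (h H N hH hN).2.1⟩⟩,
  fun _ ht ω hω => Pool.Agent.VQ.WSAvx.ws_av ht A ε hε ω hω⟩

end Pool.Agent.Results.MP_663568_nt.TimeFrequency
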