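import Mathlib
import Pool.Agent.Lib.TS2.Final

/-!
# Q1 for two-step nilpotent groups, vertical frequencies of rank two (MP_663568_nt)

`Two B` is `ℝ^d × ℝ^r` with `(x, z) (x', z') = (x + x', z + z' + B(x, x'))`, `B` a bilinear map with
integral coefficients, and `Gam B = ℤ^d × ℤ^r`. The vertical frequency `k ∈ ℤ^r` has the commutator
form `k · (B(x, y) - B(y, x))`. The `g` of Q1 run through the elements over a bounded set
`E ⊆ ℝ^d` (central part arbitrary), the vertical frequencies of the functions `f` have rank two.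
Let `E'` be the closure of `E`. The estimate of Q1 holds for `E` if and only if
* no form of rank two has a point of `E'` orthogonal to an integral point (outside of the radical),
  or the estimate of Q1 holds for all linear phases, and
* the values of such a form at the points of `E'` which lie on a rational hyperplane of this kind
  which does not contain `0`, and at an integral point, are a null set, or quadratic phases with
  top coefficient outside of the major arcs are uniformly small.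
-/

set_option autoImplicit false

namespace Pool.Agent.Results.MP_663568_nt.TwoStepGroups

open Pool.Agent.TS2

/-- `S N H = o(H log N)` as `H → ∞`, uniformly in `N ≥ H`. -/
def Small (S : ℕ → ℕ → ℝ) : Prop :=
  ∀ ε : ℝ, 0 < ε → ∃ H₀ : ℕ, ∀ H N : ℕ, H₀ ≤ H → H ≤ N → S N H ≤ ε * H * Real.log N

section

variable {d r : ℕ} {B : Fin r → Fin d → Fin d → ℤ}

/-- The average of Q1 for `f`, the base point `x₀` and the `g` over `E`. -/
noncomputable def Avg (f : Two B ⧸ Gam B → ℂ) (x₀ : Two B) (E : Set (Fin d → ℝ)) (N H : ℕ) : ℝ :=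
  ∑ n ∈ Finset.Icc 1 N, (1 / (n : ℝ)) * ⨆ g : {g : Two B // g.x ∈ E},
    ‖∑ h ∈ Finset.Icc 1 H, f (QuotientGroup.mk ((g : Two B) ^ (h + n) * x₀)) *
      ((ArithmeticFunction.moebius (n + h) : ℤ) : ℂ)‖

/-- The same with the supremum over all base points, too (`g ^ n x₀` is replaced by `x`). -/
noncomputable def AvgX (f : Two B ⧸ Gam B → ℂ) (E : Set (Fin d → ℝ)) (N H : ℕ) : ℝ :=
  ∑ n ∈ Finset.Icc 1 N, (1 / (n : ℝ)) * ⨆ v : {v : Two B × Two B // v.1.x ∈ E},
    ‖∑ h ∈ Finset.Icc 1 H, ((ArithmeticFunction.moebius (n + h) : ℤ) : ℂ) *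
      f (QuotientGroup.mk (v.1.1 ^ h * v.1.2))‖

variable (B)

/-- The commutator form of the vertical frequency `k`. -/
noncomputable def form (k : Fin r → ℤ) (x y : Fin d → ℝ) : ℝ :=
  ∑ c, (k c : ℝ) * (bil B x y c - bil B y x c)

/-- The commutator form of `k` has rank two. -/
def RankTwo (k : Fin r → ℤ) : Prop :=
  (∃ x y, form B k x y ≠ 0) ∧ ∃ u v : Fin d → ℝ, ∀ x y, form B k x y =
    (∑ i, u i * x i) * (∑ i, v i * y i) - (∑ i, u i * y i) * (∑ i, v i * x i)

/-- `E` has no point which is orthogonal to an integral point outside of the radical. -/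
def MissesPlanes (E : Set (Fin d → ℝ)) : Prop :=
  ∀ k : Fin r → ℤ, RankTwo B k → ∀ x ∈ E, ∀ q : Fin d → ℤ,
    (∃ y, form B k y (fun i => (q i : ℝ)) ≠ 0) → form B k x (fun i => (q i : ℝ)) ≠ 0

/-- The values at the points of `E` on the rational hyperplanes which do not contain `0` are null
sets. -/
def NullOnPlanes (E : Set (Fin d → ℝ)) : Prop :=
  ∀ k : Fin r → ℤ, RankTwo B k → ∀ (q q' : Fin d → ℤ) (s : ℚ), s ≠ 0 →
    MeasureTheory.volume {y : ℝ | ∃ x ∈ E, form B k x (fun i => (q i : ℝ)) = s ∧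
      y = form B k x (fun i => (q' i : ℝ))} = 0

variable {B}

/-- The vertical frequencies of `f` have rank two. -/
def RankTwoSpectrum (f : Two B ⧸ Gam B → ℂ) : Prop :=
  ∀ k : Fin r → ℤ, ¬ RankTwo B k → ∀ g : Two B,
    ∫ z in Set.Icc (0 : Fin r → ℝ) 1,
      Complex.exp (2 * Real.pi * Complex.I * ((-(∑ c, (k c : ℝ) * z c) : ℝ) : ℂ)) *
        f (QuotientGroup.mk (g * ⟨0, z⟩)) = 0

end

/-- The average for the phases `e(a h² + β h)`, `a ∈ A`, `β` real. -/
noncomputable def Quad (A : Set ℝ) (N H : ℕ) : ℝ :=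
  ∑ n ∈ Finset.Icc 1 N, (1 / (n : ℝ)) * ⨆ v : {v : ℝ × ℝ // v.1 ∈ A},
    ‖∑ h ∈ Finset.Icc 1 H, ((ArithmeticFunction.moebius (n + h) : ℤ) : ℂ) *
      Complex.exp (2 * Real.pi * Complex.I *
        ((v.1.1 * (h : ℝ) ^ 2 + v.1.2 * (h : ℝ) : ℝ) : ℂ))‖

/-- The estimate for all linear phases. -/
def Lin : Prop := Small (Quad {0})

/-- The estimate for the quadratic phases with top coefficient outside of the major arcs. -/
def Minor : Prop := ∀ ε : ℝ, 0 < ε → ∃ Q : ℕ, ∀ δ : ℝ, 0 < δ → ∃ H₀ : ℕ, ∀ H N : ℕ,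
  H₀ ≤ H → H ≤ N →
  Quad {x | ∀ q : ℕ, 1 ≤ q → q ≤ Q → ∀ b : ℤ, δ ≤ |(q : ℝ) * x - b|} N H ≤
    ε * H * Real.log N

/-- **Q1 for two-step nilpotent groups, bounded nilrotations, vertical frequencies of rank two.** -/
theorem result {d r : ℕ} (B : Fin r → Fin d → Fin d → ℤ) (E : Set (Fin d → ℝ))
    (hE : Bornology.IsBounded E) : List.TFAE [
      ∀ f : Two B ⧸ Gam B → ℂ, Continuous f → RankTwoSpectrum f → ∀ x₀ : Two B,
        Small (Avg f x₀ E),
      ∀ f : Two B ⧸ Gam B → ℂ, Continuous f → RankTwoSpectrum f → Small (AvgX f E),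
      (MissesPlanes B (closure E) ∨ Lin) ∧ (NullOnPlanes B (closure E) ∨ Minor)] :=
  Pool.Agent.TS2.main_all hE

end Pool.Agent.Results.MP_663568_nt.TwoStepGroups
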