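import Mathlib
import Pool.Agent.Lib.WC86.FinB
import Pool.Agent.Lib.WC86.MinorB
import Pool.Agent.Lib.WC86.Short
import Pool.Agent.Lib.WC86.Major
import Pool.Agent.Lib.MP_663568_dch.Law

/-!
# The supremum over a set of frequencies of the whole circle, no major arcs removed (MP_663568_nt)

The average of Q1 for `G = ℝ`, `Γ = ℤ`, `f(x) = e(x)`, `x₀ = 0`, with the supremum over `g` in a set
`A` of real numbers which may depend on `H` and `N`.
-/

set_option autoImplicit false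

namespace Pool.Agent.Results.MP_663568_nt.WholeCircle

/-- The logarithmic average over `n ≤ N` of the supremum over `y ∈ A` of
`|∑_{h ≤ H} e((h + n) y) μ(n + h)|`. -/
noncomputable def Avg (A : Set ℝ) (N H : ℕ) : ℝ :=
  ∑ n ∈ Finset.Icc 1 N, (1 / (n : ℝ)) * ⨆ y : {y : ℝ // y ∈ A},
    ‖∑ h ∈ Finset.Icc 1 H,
      Complex.exp (2 * Real.pi * Complex.I * (((h + n : ℕ) : ℝ) * (y : ℝ) : ℝ)) *
        ((ArithmeticFunction.moebius (n + h) : ℤ) : ℂ)‖

/-- The union of `A` and `-A`. -/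
def Sym (A : Set ℝ) : Set ℝ := {y | y ∈ A ∨ -y ∈ A}

/-- The measure of the set of points of `[0, 1]` at distance at most `1 / R` from `A` modulo `1`. -/
noncomputable def outer (A : Set ℝ) (R : ℝ) : ℝ :=
  (MeasureTheory.volume {x : ℝ | x ∈ Set.Icc 0 1 ∧ ∃ y ∈ A, ∃ b : ℤ, |y - x - b| ≤ 1 / R}).toReal

/-- The measure of the set of points of `[0, 1]` whose closed `1 / R`-neighbourhood is contained in
`A` modulo `1`. -/
noncomputable def inner (A : Set ℝ) (R : ℝ) : ℝ :=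
  (MeasureTheory.volume {x : ℝ | x ∈ Set.Icc 0 1 ∧ ∀ z : ℝ, |z - x| ≤ 1 / R →
    ∃ b : ℤ, z + b ∈ A}).toReal

/-- **Upper and lower bound for the supremum over a set of frequencies by the measure of the
union of the set and its negative.** -/
theorem result (ε R : ℝ) (hε : 0 < ε) (hR : 1 ≤ R) :
    ∃ H₀ : ℕ, ∀ H N : ℕ, H₀ ≤ H → H ≤ N → ∀ A : Set ℝ,
      Avg A N H ≤ (min (√(3 * outer (Sym A) R) / Real.pi)
        (12 / Real.pi ^ 3 * ((4 + outer (Sym A) R) / 5)) + ε) * H * Real.log N ∧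
      ∃ L : ℕ, (H : ℝ) ^ (1 - ε) ≤ L ∧ L ≤ H ∧
        inner (Sym A) R * Avg Set.univ N H / H - ε * Real.log N ≤ Avg A N L / L :=
  Pool.Agent.WC86.finalB Pool.Agent.Lib.MP_663568_dch.minorLaw
    (Pool.Agent.WC86.major Pool.Agent.WC86.muAP_top)
    (Pool.Agent.WC86.minorB Pool.Agent.WC86.singleLaw Pool.Agent.WC86.pairLaw) ε R hε hR

end Pool.Agent.Results.MP_663568_nt.WholeCircle
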